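import Pool.Agent.Helper95_PSC.Stmts

set_option autoImplicit false

/-!
Module TileStmt: basic facts on the tiles.
-/

namespace Pool.Agent.Helper40_PSC

open Pool.Agent.Helper40_Pisot MeasureTheory Pool.Agent.PSC

variable {m : ℕ}

lemma pr_add (α : Fin (m + 1) → ℝ) (v w : Lat m) : pr α (v + w) = pr α v + pr α w := by
  funext i
  simp only [pr, Pi.add_apply, Int.cast_add, Finset.sum_add_distrib]
  ring

lemma tile_eq_preimage (σ : Fin (m + 1) → List (Fin (m + 1))) (α : Fin (m + 1) → ℝ)
    (x0 : ℤ → Fin (m + 1)) (F : Face m) :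
    tile σ α x0 F = (fun y => pr α F.1 + ph α x0 - y) ⁻¹' Rset σ α F.2 := by
  ext y
  constructor
  · rintro ⟨p, hp, rfl⟩
    simpa using hp
  · intro hy
    exact ⟨_, hy, by simp⟩

lemma volume_tile (σ : Fin (m + 1) → List (Fin (m + 1))) (α : Fin (m + 1) → ℝ)
    (x0 : ℤ → Fin (m + 1)) (F : Face m) (hm : MeasurableSet (Rset σ α F.2)) :
    volume (tile σ α x0 F) = volume (Rset σ α F.2) := by
  rw [tile_eq_preimage]
  exact (Measure.measurePreserving_sub_left (volume : Measure (E m)) _).measure_preimage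
    hm.nullMeasurableSet

/-- The volumes of the subtiles form a Perron eigenvector. -/
lemma vol_eig {σ : Fin (m + 1) → List (Fin (m + 1))} {M : Matrix (Fin (m + 1)) (Fin (m + 1)) ℤ}
    {r : ℝ} {α l : Fin (m + 1) → ℝ} {a0 : Fin (m + 1)} {x0 : ℤ → Fin (m + 1)}
    (D : Dat σ M r α l a0 x0) (k : ℕ) (i : Fin (m + 1)) :
    ∑ j, ((M ^ k) i j : ℝ) * (volume (Rset σ α j)).toReal =
      r ^ k * (volume (Rset σ α i)).toReal := by
  obtain ⟨C, hC0, hC⟩ := disc_lang_bound D.inc D.pf
  have hp := prim_of_pf D.inc D.pf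
  have hfin : ∀ j, volume (Rset σ α j) ≠ ⊤ := fun j =>
    (isCompact_Rset D.ne hp hC j).measure_lt_top.ne
  have hr0 : 0 < r := by linarith [D.pf.one_lt]
  have hdet := det_Bred D.pf k
  have hle : ∀ i, r ^ k * (volume (Rset σ α i)).toReal ≤
      ∑ j, ((M ^ k) i j : ℝ) * (volume (Rset σ α j)).toReal := by
    intro i
    have h1 : volume (Rset σ α i) ≤
        ∑ p ∈ Idx σ k i, volume (piece σ M α (ph α x0) k p '' Rset σ α p.1) :=
      (measure_mono (setEq D.inc D.pf D.hm D.ne hC D.fix k i)).trans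
        (measure_biUnion_finset_le _ _)
    have h2 : (volume (Rset σ α i)).toReal ≤ |(Bred M α k).det| *
        ∑ j, ((M ^ k) i j : ℝ) * (volume (Rset σ α j)).toReal := by
      have h3 := ENNReal.toReal_mono ?_ h1
      · refine h3.trans (le_of_eq ?_)
        rw [ENNReal.toReal_sum]
        · have h1 : ∀ p ∈ Idx σ k i, (volume (piece σ M α (ph α x0) k p '' Rset σ α p.1)).toReal =
              |(Bred M α k).det| * (volume (Rset σ α p.1)).toReal := by
            intro p _
            rw [volume_piece, ENNReal.toReal_mul, ENNReal.toReal_ofReal (abs_nonneg _)]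
          rw [Finset.sum_congr rfl h1, ← Finset.mul_sum]
          congr 1
          unfold Idx
          rw [Finset.sum_sigma]
          refine Finset.sum_congr rfl fun j _ => ?_
          change ∑ s ∈ (Finset.range (it σ k [j]).length).filter
            (fun t => (it σ k [j])[t]? = some i), (volume (Rset σ α j)).toReal = _
          rw [Finset.sum_const, card_filter_count, nsmul_eq_mul]
          congr 1
          have := count_it_single D.inc k j i
          exact_mod_cast this
        · intro p _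
          rw [volume_piece]
          exact ENNReal.mul_ne_top ENNReal.ofReal_ne_top (hfin p.1)
      · apply ENNReal.sum_ne_top.2
        intro p _
        rw [volume_piece]
        exact ENNReal.mul_ne_top ENNReal.ofReal_ne_top (hfin p.1)
    have hrk : 0 < r ^ k := by positivity
    calc r ^ k * (volume (Rset σ α i)).toReal ≤ r ^ k * (|(Bred M α k).det| *
        ∑ j, ((M ^ k) i j : ℝ) * (volume (Rset σ α j)).toReal) :=
          mul_le_mul_of_nonneg_left h2 hrk.le
      _ = (|(Bred M α k).det| * r ^ k) *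
        ∑ j, ((M ^ k) i j : ℝ) * (volume (Rset σ α j)).toReal := by ring
      _ = _ := by rw [hdet, one_mul]
  have hsum : ∑ i, l i * (r ^ k * (volume (Rset σ α i)).toReal) =
      ∑ i, l i * ∑ j, ((M ^ k) i j : ℝ) * (volume (Rset σ α j)).toReal := by
    simp_rw [Finset.mul_sum]
    rw [Finset.sum_comm]
    refine Finset.sum_congr rfl fun j _ => ?_
    have h1 : ∑ i, l i * (((M ^ k) i j : ℝ) * (volume (Rset σ α j)).toReal) =
        (∑ i, l i * ((M ^ k) i j : ℝ)) * (volume (Rset σ α j)).toReal := by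
      rw [Finset.sum_mul]
      exact Finset.sum_congr rfl fun i _ => by ring
    rw [h1, pow_l D.pf]
    ring
  have heq := (Finset.sum_eq_sum_iff_of_le (fun i _ =>
    mul_le_mul_of_nonneg_left (hle i) (D.pf.l_pos i).le)).1 hsum i (Finset.mem_univ i)
  exact (mul_left_cancel₀ (D.pf.l_pos i).ne' heq).symm

/-- The torus map is onto. -/
lemma piT_surj {σ : Fin (m + 1) → List (Fin (m + 1))} {M : Matrix (Fin (m + 1)) (Fin (m + 1)) ℤ}
    {r : ℝ} {α l : Fin (m + 1) → ℝ} {a0 : Fin (m + 1)} {x0 : ℤ → Fin (m + 1)}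
    (D : Dat σ M r α l a0 x0) :
    piT α '' {x : ℤ → Fin (m + 1) | InX σ x} = Set.univ := by
  obtain ⟨C, hC0, hC⟩ := disc_lang_bound D.inc D.pf
  have hp := prim_of_pf D.inc D.pf
  have hcont : ContinuousOn (piT α) {x : ℤ → Fin (m + 1) | InX σ x} := by
    have h3 := continuousOn_phi D.ne hp hC
    have h4 : ContinuousOn (ph α) {x : ℤ → Fin (m + 1) | InX σ x} := by
      rw [continuousOn_pi] at h3 ⊢
      intro j
      exact h3 j.castSucc
    exact continuous_qT.comp_continuousOn h4
  have hcl : IsClosed (piT α '' {x : ℤ → Fin (m + 1) | InX σ x}) :=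
    ((isCompact_X σ).image_of_continuousOn hcont).isClosed
  have hd2 : Dense (piT α '' {x : ℤ → Fin (m + 1) | InX σ x}) := by
    refine (dense_orbit D.pf (piT α x0)).mono ?_
    rintro _ ⟨n, rfl⟩
    exact ⟨sh n x0, D.fix.inX.sh n, piT_sh hC D.fix.inX n⟩
  rw [← hcl.closure_eq]
  exact hd2.closure_eq

lemma vol_pos {σ : Fin (m + 1) → List (Fin (m + 1))} {M : Matrix (Fin (m + 1)) (Fin (m + 1)) ℤ}
    {r : ℝ} {α l : Fin (m + 1) → ℝ} {a0 : Fin (m + 1)} {x0 : ℤ → Fin (m + 1)}
    (D : Dat σ M r α l a0 x0) (i : Fin (m + 1)) : 0 < volume (Rset σ α i) := by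
  obtain ⟨C, hC0, hC⟩ := disc_lang_bound D.inc D.pf
  have hp := prim_of_pf D.inc D.pf
  have hcomp : ∀ j, IsCompact (Rset σ α j) := fun j => isCompact_Rset D.ne hp hC j
  have hfin : ∀ j, volume (Rset σ α j) ≠ ⊤ := fun j => (hcomp j).measure_lt_top.ne
  -- some subtile has positive volume
  have h1 : ∃ j, 0 < volume (Rset σ α j) := by
    by_contra hall
    push Not at hall
    have hZ : IsCompact (⋃ j, Rset σ α j) := isCompact_iUnion hcomp
    have hZ0 : volume (⋃ j, Rset σ α j) = 0 := by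
      rw [measure_iUnion_null_iff]
      intro j
      exact le_antisymm (hall j) bot_le
    have h0 := null_image hZ hZ0
    have huniv : qT '' (⋃ j, Rset σ α j) = Set.univ := by
      rw [← piT_surj D]
      ext y
      constructor
      · rintro ⟨w, hw, rfl⟩
        rw [Set.mem_iUnion] at hw
        obtain ⟨j, x, ⟨hx, hxj⟩, rfl⟩ := hw
        exact ⟨x, hx, rfl⟩
      · rintro ⟨x, hx, rfl⟩
        exact ⟨ph α x, Set.mem_iUnion.2 ⟨x 0, x, ⟨hx, rfl⟩, rfl⟩, rfl⟩
    rw [huniv] at h0
    have h2 : (volume : Measure (Fin m → UnitAddCircle)) Set.univ ≠ 0 :=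
      (Measure.measure_univ_ne_zero).2 (NeZero.ne _)
    exact h2 h0
  obtain ⟨j, hj⟩ := h1
  obtain ⟨K, hK⟩ := D.pf.prim
  have h2 := vol_eig D K i
  have hr0 : 0 < r := by linarith [D.pf.one_lt]
  have h3 : 0 < ∑ j, ((M ^ K) i j : ℝ) * (volume (Rset σ α j)).toReal := by
    refine Finset.sum_pos' (fun t _ => mul_nonneg ?_ ENNReal.toReal_nonneg)
      ⟨j, Finset.mem_univ j, mul_pos ?_ (ENNReal.toReal_pos hj.ne' (hfin j))⟩
    · exact_mod_cast (hK K le_rfl i t).le
    · exact_mod_cast hK K le_rfl i j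
  rw [h2] at h3
  have h4 : 0 < (volume (Rset σ α i)).toReal := by
    by_contra hneg
    have : (volume (Rset σ α i)).toReal = 0 := le_antisymm (not_lt.1 hneg) ENNReal.toReal_nonneg
    rw [this, mul_zero] at h3
    exact lt_irrefl _ h3
  exact (ENNReal.toReal_pos_iff.1 h4).1

theorem tileStmt : TileStmt := by
  intro m σ M r α l a0 x0 D
  obtain ⟨C, hC0, hC⟩ := disc_lang_bound D.inc D.pf
  have hp := prim_of_pf D.inc D.pf
  have hcomp : ∀ j, IsCompact (Rset σ α j) := fun j => isCompact_Rset D.ne hp hC j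
  have hvol : ∀ F : Face m, volume (tile σ α x0 F) = volume (Rset σ α F.2) := fun F =>
    volume_tile σ α x0 F (hcomp F.2).isClosed.measurableSet
  refine ⟨?_, ?_, ?_, ?_, ?_⟩
  · intro F
    exact (hcomp F.2).image (by fun_prop)
  · intro v F
    unfold tile tr
    rw [Set.image_image]
    refine Set.image_congr fun p _ => ?_
    rw [pr_add]
    abel
  · have hbd : ∀ j, ∃ K, ∀ p ∈ Rset σ α j, ‖ph α x0 - p‖ ≤ K := by
      intro j
      obtain ⟨K, hK⟩ := (hcomp j).isBounded.exists_norm_le
      refine ⟨‖ph α x0‖ + K, fun p hp => ?_⟩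
      exact (norm_sub_le _ _).trans (by linarith [hK p hp])
    choose K hK using hbd
    refine ⟨∑ j, |K j|, ?_⟩
    rintro F _ ⟨p, hp, rfl⟩ i
    have h1 : (pr α F.1 + ph α x0 - p) i - pr α F.1 i = (ph α x0 - p) i := by
      simp only [Pi.add_apply, Pi.sub_apply]
      ring
    rw [h1, ← Real.norm_eq_abs]
    refine (norm_le_pi_norm _ i).trans ((hK F.2 p hp).trans ((le_abs_self _).trans ?_))
    exact Finset.single_le_sum (f := fun j => |K j|) (fun j _ => abs_nonneg _) (Finset.mem_univ F.2)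
  · intro F
    rw [hvol]
    exact vol_pos D F.2
  · intro i
    have h := vol_eig D 1 i
    simp only [pow_one] at h
    simp only [hvol]
    exact h

end Pool.Agent.Helper40_PSC
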