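import Pool.Agent.Helper95_PSC.Stmts
import Pool.Agent.Helper40_Pisot.Power

set_option autoImplicit false

/-!
Module RedStmt: reduction to a substitution with a fixed letter.
-/

namespace Pool.Agent.Helper40_PSC

open Pool.Agent.Helper40_Pisot MeasureTheory Pool.Agent.PSC

variable {d : ℕ}

/-- The power of a substitution. -/
def powS (σ : Fin d → List (Fin d)) (N : ℕ) : Fin d → List (Fin d) := fun b => it σ N [b]

lemma flatMap_powS (σ : Fin d → List (Fin d)) (N : ℕ) (w : List (Fin d)) :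
    w.flatMap (powS σ N) = it σ N w := (it_flatMap σ N w).symm

lemma it_powS (σ : Fin d → List (Fin d)) (N n : ℕ) (w : List (Fin d)) :
    it (powS σ N) n w = it σ (N * n) w := by
  induction n with
  | zero => simp
  | succ n ih => rw [it_succ', ih, flatMap_powS, ← it_add, Nat.mul_succ, Nat.add_comm]

lemma lang_powS {σ : Fin d → List (Fin d)} (hp : Prim σ) {N : ℕ} (hN : 1 ≤ N)
    (w : List (Fin d)) : Lang (powS σ N) w ↔ Lang σ w := by
  constructor
  · rintro ⟨n, a, hn, h⟩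
    rw [it_powS] at h
    exact ⟨N * n, a, Nat.mul_pos hN hn, h⟩
  · rintro ⟨n, a, hn, h⟩
    obtain ⟨K, hK1, hK⟩ := hp
    -- the iterate number `N * (n + K)`
    have h1 : n + (N * (n + K) - n) = N * (n + K) := by
      have : n + K ≤ N * (n + K) := Nat.le_mul_of_pos_left _ hN
      omega
    have h2 : K ≤ N * (n + K) - n := by
      have : n + K ≤ N * (n + K) := Nat.le_mul_of_pos_left _ hN
      omega
    refine ⟨n + K, a, by omega, ?_⟩
    rw [it_powS, ← h1, it_add]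
    refine h.trans ?_
    obtain ⟨s, t, hst⟩ := List.append_of_mem (hK _ h2 a a)
    apply it_infix
    exact ⟨s, t, by rw [hst]; simp⟩

lemma inX_powS {σ : Fin d → List (Fin d)} (hp : Prim σ) {N : ℕ} (hN : 1 ≤ N)
    (x : ℤ → Fin d) : InX (powS σ N) x ↔ InX σ x := by
  unfold InX
  constructor
  · intro h i k
    exact (lang_powS hp hN _).1 (h i k)
  · intro h i k
    exact (lang_powS hp hN _).2 (h i k)

lemma powS_ne {σ : Fin d → List (Fin d)} (hσ : ∀ a, σ a ≠ []) (N : ℕ) (a : Fin d) :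
    powS σ N a ≠ [] := by
  intro h
  have h1 := length_it_mono hσ [a] (Nat.zero_le N)
  have h2 : it σ N [a] = [] := h
  rw [h2] at h1
  simp at h1

lemma inc_powS {σ : Fin d → List (Fin d)} {M : Matrix (Fin d) (Fin d) ℤ} (hM : Inc σ M) (N : ℕ) :
    Inc (powS σ N) (M ^ N) := by
  intro i j
  exact (count_it_single hM N j i).symm

/-- The first letter. -/
def fl (σ : Fin d → List (Fin d)) (hσ : ∀ a, σ a ≠ []) (a : Fin d) : Fin d :=
  (σ a).head (hσ a)

lemma fl_prefix {σ : Fin d → List (Fin d)} (hσ : ∀ a, σ a ≠ []) (a : Fin d) (n : ℕ) :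
    [(fl σ hσ)^[n] a] <+: it σ n [a] := by
  induction n with
  | zero => simp
  | succ n ih =>
    rw [it_succ', Function.iterate_succ_apply']
    obtain ⟨t, ht⟩ := ih
    rw [← ht, List.flatMap_append]
    refine List.IsPrefix.trans ?_ (List.prefix_append _ _)
    simp only [List.flatMap_cons, List.flatMap_nil, List.append_nil]
    refine ⟨(σ ((fl σ hσ)^[n] a)).tail, ?_⟩
    simp only [fl, List.singleton_append]
    exact List.cons_head_tail _

lemma exists_fixLetter {σ : Fin d → List (Fin d)} (hσ : ∀ a, σ a ≠ []) (hd : 0 < d) :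
    ∃ (N : ℕ) (a : Fin d), 1 ≤ N ∧ FixLetter (powS σ N) a := by
  have hmaps : ∃ i j : ℕ, i < j ∧ (fl σ hσ)^[i] ⟨0, hd⟩ = (fl σ hσ)^[j] ⟨0, hd⟩ := by
    obtain ⟨i, j, hij, h⟩ := Finite.exists_ne_map_eq_of_infinite
      (fun n : ℕ => (fl σ hσ)^[n] ⟨0, hd⟩)
    rcases lt_or_gt_of_ne hij with h1 | h1
    · exact ⟨i, j, h1, h⟩
    · exact ⟨j, i, h1, h.symm⟩
  obtain ⟨i, j, hij, h⟩ := hmaps
  refine ⟨j - i, (fl σ hσ)^[i] ⟨0, hd⟩, by omega, ?_⟩
  have h1 := fl_prefix hσ ((fl σ hσ)^[i] ⟨0, hd⟩) (j - i)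
  rw [← Function.iterate_add_apply, show j - i + i = j by omega, ← h] at h1
  exact h1

theorem redStmt : RedStmt := by
  intro hmain d hd σ hσ M hM hpis hirr hdet X hX
  obtain ⟨r, hr1, hr2, hr3⟩ := hpis
  obtain ⟨m, rfl⟩ : ∃ m, d = m + 1 := ⟨d - 1, by omega⟩
  have hP : PisotMat M r := ⟨hr1, hr2, hr3, hirr, hdet⟩
  have hnn : ∀ i j, 0 ≤ M i j := by
    intro i j
    rw [hM i j]
    exact Int.natCast_nonneg _
  obtain ⟨α, l, hpf⟩ := pfData M r hP hnn
  have hp : Prim σ := prim_of_pf hM hpf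
  obtain ⟨N, a, hN, ha⟩ := exists_fixLetter hσ (show 0 < m + 1 by omega)
  have hpfN := pf_pow hpf hN
  have hPN := pisot_pow hP hN
  have hpN : Prim (powS σ N) := prim_of_pf (inc_powS hM N) hpfN
  obtain ⟨x0, hx0, hfix⟩ := exists_fixed (show 2 ≤ m + 1 by omega) (powS_ne hσ N) hpN ha
  have D : Dat (powS σ N) (M ^ N) (r ^ N) α l a x0 :=
    ⟨by omega, powS_ne hσ N, inc_powS hM N, hPN, hpfN, ⟨hx0, hfix⟩⟩
  have hc := hmain m (powS σ N) (M ^ N) (r ^ N) α l a x0 D
  have hXeq : X = {x | InX (powS σ N) x} := by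
    ext x
    rw [Set.mem_ofPred_eq, inX_powS hp hN]
    exact hX x
  rw [hXeq]
  exact hc

end Pool.Agent.Helper40_PSC
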