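import Pool.Agent.Helper40_PSC.Red
import Pool.Agent.Helper95_PSC.Stmts2

set_option autoImplicit false

/-!
Module DatStmt: the data exist for some power of the substitution.
-/

namespace Pool.Agent.Helper40_PSC

open Pool.Agent.Helper40_Pisot MeasureTheory Pool.Agent.PSC

theorem datStmt : DatStmt := by
  intro m hm σ M r hσ hM hP
  have hnn : ∀ i j, 0 ≤ M i j := by
    intro i j
    rw [hM i j]
    exact Int.natCast_nonneg _
  obtain ⟨α, l, hpf⟩ := pfData M r hP hnn
  obtain ⟨N, a, hN, ha⟩ := exists_fixLetter hσ (show 0 < m + 1 by omega)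
  have hpfN := pf_pow hpf hN
  have hPN := pisot_pow hP hN
  have hpN : Prim (powS σ N) := prim_of_pf (inc_powS hM N) hpfN
  obtain ⟨x0, hx0, hfix⟩ := exists_fixed (show 2 ≤ m + 1 by omega) (powS_ne hσ N) hpN ha
  exact ⟨N, α, l, a, x0, hN, hm, powS_ne hσ N, inc_powS hM N, hPN, hpfN, ⟨hx0, hfix⟩⟩

end Pool.Agent.Helper40_PSC
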